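import Pool.Agent.S03663
import Pool.Agent.Lib.MP_010b1d_an.QHedge

set_option autoImplicit false

open MeasureTheory Filter
open Pool.Agent.Lib.MP_010b1d_an Pool.Agent.Lib.MP_010b1d_an.Hedge

namespace Pool.Agent.Results.MP_010b1d_an.BoundaryHoelder

theorem result (n : ℕ) (hn : 2 ≤ n) (Ω : Set (Rn n)) (hΩ : IsOpen Ω)
    (hb : Bornology.IsBounded Ω) (f : Rn n → Rn n) (g : Rn n → Ln n) (K : ℝ) (hK : 1 ≤ K)
    (hf : ContinuousOn f (closure Ω)) (hg1 : LocLn Ω g) (hg2 : WeakDeriv Ω f g)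
    (hq : Outer Ω g K) (M δ : ℝ) (hM : 0 ≤ M) (h0 : 0 < δ) (h1 : δ ≤ 1)
    (hH : Hoelder (frontier Ω) f M δ) :
    ∃ KI : ℝ, IsLeast {K' : ℝ | 1 ≤ K' ∧ Inner Ω g K'} KI ∧
      ∃ M1 : ℝ, Hoelder (closure Ω) f M1 (min δ (KI ^ (1 / (1 - (n : ℝ))))) := by
  have hg : WeakDerivLn Ω f g := ⟨hg1, hg2⟩
  have hn1 : 1 ≤ n := by omega
  have main := Pool.Agent.S03663.result n hn Ω hΩ hb f g K M δ hf (hg.meas hn1 hΩ)
    (fun C h2 h3 => hg.pow hn1 h2 h3)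
    (fun φ h2 h3 h4 i => hg.weak1 hn1 hΩ (hf.mono subset_closure) φ h2 h3 h4 _) hK hq hM h0 h1
    (fun x hx y hy => by simpa only [dist_eq_norm] using hH x hx y hy)
  set S := {K' : ℝ | 1 ≤ K' ∧ ∀ᵐ x ∂(volume.restrict Ω),
    ∀ h : EuclideanSpace ℝ (Fin n), ‖h‖ = 1 →
      LinearMap.det ((g x : EuclideanSpace ℝ (Fin n) →ₗ[ℝ] EuclideanSpace ℝ (Fin n)))
        ≤ K' * ‖g x h‖ ^ n} with hS
  have e : {K' : ℝ | 1 ≤ K' ∧ Inner Ω g K'} = S := by
    ext K'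
    refine and_congr_right fun h2 => eventually_congr (Eventually.of_forall fun x => ?_)
    exact ell_iff hn1 (g x) (by linarith) _
  have hne : S.Nonempty := by
    refine ⟨(n * ‖DD n‖) ^ n * K ^ (n - 1) + 1, ?_, ?_⟩
    · have : 0 ≤ (n * ‖DD n‖) ^ n * K ^ (n - 1) := by positivity
      linarith
    · filter_upwards [hq] with x hx h hh
      exact inner_bd hn1 (by linarith) (g x) hx h hh
  have hbdd : BddBelow S := ⟨1, fun K' hK' => hK'.1⟩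
  obtain ⟨u, -, hu, huS⟩ := exists_seq_tendsto_sInf hne hbdd
  refine ⟨sInf S, ?_, ?_⟩
  · rw [e]
    refine ⟨⟨le_csInf hne fun K' hK' => hK'.1, ?_⟩, fun K' hK' => csInf_le hbdd hK'⟩
    filter_upwards [ae_all_iff.2 fun j => (huS j).2] with x hx h hh
    exact ge_of_tendsto' (hu.mul_const _) fun j => hx j h hh
  · simpa only [dist_eq_norm, Hoelder] using main

end Pool.Agent.Results.MP_010b1d_an.BoundaryHoelder
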